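import Pool.Agent.Helper30.TQ.St

/-!
# Project TQ, module PAD: the third entries of the powers of the unit
-/

set_option autoImplicit false

namespace Pool.Agent.Helper72.TQ

open Pool.Agent.Helper30.TQ

/-- multiplication by the root -/
private def T (c : ℤ) : Module.End ℤ (ℤ × ℤ × ℤ) where
  toFun u := (-4 * u.2.2, u.1 - 4 * c * u.2.2, u.2.1)
  map_add' u v := by
    refine Prod.ext ?_ (Prod.ext ?_ ?_)
    · simp only [Prod.fst_add, Prod.snd_add]
      ring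
    · simp only [Prod.fst_add, Prod.snd_add]
      ring
    · simp only [Prod.fst_add, Prod.snd_add]
  map_smul' s u := by
    refine Prod.ext ?_ (Prod.ext ?_ ?_)
    · simp only [Prod.smul_fst, Prod.smul_snd, smul_eq_mul, RingHom.id_apply]
      ring
    · simp only [Prod.smul_fst, Prod.smul_snd, smul_eq_mul, RingHom.id_apply]
      ring
    · simp only [Prod.smul_fst, Prod.smul_snd, smul_eq_mul, RingHom.id_apply]

private lemma T_apply (c : ℤ) (u : ℤ × ℤ × ℤ) :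
    T c u = (-4 * u.2.2, u.1 - 4 * c * u.2.2, u.2.1) := rfl

/-- the third entry -/
private def L : (ℤ × ℤ × ℤ) →ₗ[ℤ] ℤ := (LinearMap.snd ℤ ℤ ℤ) ∘ₗ (LinearMap.snd ℤ ℤ (ℤ × ℤ))

private lemma L_apply (u : ℤ × ℤ × ℤ) : L u = u.2.2 := rfl

private lemma mu_eq (c : ℤ) (u : ℤ × ℤ × ℤ) : mu c u (1, c, 0) = (c • T c + 1) u := by
  rw [LinearMap.add_apply, LinearMap.smul_apply, T_apply, Module.End.one_apply]
  unfold mu
  refine Prod.ext ?_ (Prod.ext ?_ ?_)
  · simp only [Prod.fst_add, Prod.smul_fst, smul_eq_mul]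
    ring
  · simp only [Prod.fst_add, Prod.snd_add, Prod.smul_fst, Prod.smul_snd, smul_eq_mul]
    ring
  · simp only [Prod.snd_add, Prod.smul_snd, smul_eq_mul]
    ring

private lemma pw_eq (c : ℤ) (n : ℕ) : pw c n = ((c • T c + 1) ^ n) (1, 0, 0) := by
  induction n with
  | zero => rfl
  | succ n ih =>
    show mu c (pw c n) (1, c, 0) = _
    rw [mu_eq, ih, pow_succ', Module.End.mul_apply]

private lemma third (c : ℤ) (n : ℕ) : (pw c n).2.2 =
    ∑ k ∈ Finset.range (n + 1), (n.choose k : ℤ) * c ^ k * L ((T c ^ k) (1, 0, 0)) := by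
  rw [← L_apply, pw_eq, (Commute.one_right (c • T c)).add_pow, LinearMap.sum_apply, map_sum]
  refine Finset.sum_congr rfl fun k _ => ?_
  rw [one_pow, mul_one, smul_pow, Module.End.mul_apply, Module.End.natCast_apply, LinearMap.smul_apply,
    map_nsmul, map_smul, map_nsmul, nsmul_eq_mul, smul_eq_mul]
  ring

private lemma size (l : ℕ) (hl : 3 ≤ l) : (l + 2) * (l + 1) < 3 ^ l := by
  induction l, hl using Nat.le_induction with
  | base => norm_num
  | succ l hl ih =>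
    rw [pow_succ]
    nlinarith

private lemma not_dvd (l : ℕ) (hl : 2 ≤ l) : ¬ 3 ^ l ∣ (l + 2) * (l + 1) := by
  rcases Nat.lt_or_ge l 3 with h | h
  · have : l = 2 := by omega
    subst this
    norm_num
  · intro h1
    have h2 := Nat.le_of_dvd (by positivity) h1
    have h3 := size l h
    omega

private lemma choose_id (m l : ℕ) :
    (m + 2).choose (l + 2) * ((l + 2) * (l + 1)) = (m + 2) * (m + 1) * m.choose l := by
  have h1 := Nat.add_one_mul_choose_eq (m + 1) (l + 1)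
  have h2 := Nat.add_one_mul_choose_eq m l
  calc (m + 2).choose (l + 2) * ((l + 2) * (l + 1)) = ((m + 1 + 1).choose (l + 1 + 1) * (l + 1 + 1)) * (l + 1) := by
        ring
    _ = (m + 1 + 1) * (m + 1).choose (l + 1) * (l + 1) := by rw [← h1]
    _ = (m + 2) * ((m + 1).choose (l + 1) * (l + 1)) := by ring
    _ = (m + 2) * ((m + 1) * m.choose l) := by rw [← h2]
    _ = _ := by ring

private lemma choose_id' (m l : ℕ) :
    (m + 2).choose (l + 2) * ((l + 2) * (l + 1)) = 2 * (m + 2).choose 2 * m.choose l := by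
  rw [choose_id m l]
  have h := choose_id m 0
  simp only [zero_add, mul_one, Nat.choose_zero_right] at h
  rw [← h]
  ring

private lemma key (c c' : ℤ) (hc : c = 3 * c') (m l v : ℕ) (hl : 2 ≤ l)
    (hv : (3 : ℤ) ^ v ∣ ((m + 2).choose 2 : ℤ) * c ^ 2) :
    (3 : ℤ) ^ (v + 1) ∣ ((m + 2).choose (l + 2) : ℤ) * c ^ (l + 2) := by
  obtain ⟨j, m', hm', hj⟩ := Nat.exists_eq_pow_mul_and_not_dvd
    (n := (l + 2) * (l + 1)) (by positivity) 3 (by norm_num)
  have hjl : j < l := by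
    by_contra h
    have h1 : l ≤ j := by omega
    exact not_dvd l hl (hj ▸ Dvd.dvd.mul_right (pow_dvd_pow 3 h1) m')
  obtain ⟨d, hd⟩ : ∃ d, l = j + 1 + d := ⟨l - j - 1, by omega⟩
  have h1 : (((m + 2).choose (l + 2) : ℕ) : ℤ) * ((3 : ℤ) ^ j * (m' : ℤ)) =
      2 * (((m + 2).choose 2 : ℕ) : ℤ) * ((m.choose l : ℕ) : ℤ) := by
    have h2 := choose_id' m l
    rw [hj] at h2
    exact_mod_cast h2
  obtain ⟨e, he⟩ := hv
  have h3 : (3 : ℤ) ^ j * ((((m + 2).choose (l + 2) : ℕ) : ℤ) * c ^ (l + 2) * (m' : ℤ)) =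
      (3 : ℤ) ^ j * ((3 : ℤ) ^ (v + 1) * (2 * e * ((m.choose l : ℕ) : ℤ) * 3 ^ d * c' ^ l)) := by
    have h4 : c ^ l = 3 ^ j * 3 * 3 ^ d * c' ^ l := by
      rw [hc, mul_pow]
      congr 1
      rw [hd]
      ring
    calc (3 : ℤ) ^ j * ((((m + 2).choose (l + 2) : ℕ) : ℤ) * c ^ (l + 2) * (m' : ℤ)) =
        ((((m + 2).choose (l + 2) : ℕ) : ℤ) * ((3 : ℤ) ^ j * (m' : ℤ))) * (c ^ 2 * c ^ l) := by ring
      _ = (2 * (((m + 2).choose 2 : ℕ) : ℤ) * ((m.choose l : ℕ) : ℤ)) * (c ^ 2 * (3 ^ j * 3 * 3 ^ d * c' ^ l)) := by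
          rw [h1, h4]
      _ = ((((m + 2).choose 2 : ℕ) : ℤ) * c ^ 2) * (2 * ((m.choose l : ℕ) : ℤ) * (3 ^ j * 3 * 3 ^ d * c' ^ l)) := by
          ring
      _ = _ := by
          rw [he]
          ring
  have h5 := mul_left_cancel₀ (pow_ne_zero j (by norm_num : (3 : ℤ) ≠ 0)) h3
  have h6 : IsCoprime ((3 : ℤ) ^ (v + 1)) (m' : ℤ) := by
    refine IsCoprime.pow_left ?_
    have h7 : Nat.Coprime 3 m' := (Nat.Prime.coprime_iff_not_dvd Nat.prime_three).2 hm'
    exact_mod_cast Nat.isCoprime_iff_coprime.2 h7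
  exact h6.dvd_of_dvd_mul_right ⟨_, h5⟩

private lemma lam0 (c : ℤ) : L ((T c ^ 0) (1, 0, 0)) = 0 := rfl

private lemma lam1 (c : ℤ) : L ((T c ^ 1) (1, 0, 0)) = 0 := by
  rw [pow_one, T_apply, L_apply]

private lemma lam2 (c : ℤ) : L ((T c ^ 2) (1, 0, 0)) = 1 := by
  rw [pow_two, Module.End.mul_apply, T_apply, T_apply, L_apply]
  norm_num

private lemma lam3 (c : ℤ) : L ((T c ^ 3) (1, 0, 0)) = 0 := by
  rw [pow_succ, pow_two, Module.End.mul_apply, Module.End.mul_apply, T_apply, T_apply, T_apply, L_apply]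
  simp

/-- Module PAD. -/
theorem hPAD : StPAD := by
  intro c hc hc0 n hn h0
  obtain ⟨c', hc'⟩ := hc
  obtain ⟨m, rfl⟩ : ∃ m, n = m + 2 := ⟨n - 2, by omega⟩
  rw [third] at h0
  have hD0 : ((m + 2).choose 2 : ℤ) * c ^ 2 ≠ 0 := by
    refine mul_ne_zero ?_ (pow_ne_zero _ hc0)
    have : 0 < (m + 2).choose 2 := Nat.choose_pos (by omega)
    exact_mod_cast this.ne'
  have hfin : FiniteMultiplicity (3 : ℤ) (((m + 2).choose 2 : ℤ) * c ^ 2) :=
    Int.finiteMultiplicity_iff.2 ⟨by norm_num, hD0⟩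
  set v := multiplicity (3 : ℤ) (((m + 2).choose 2 : ℤ) * c ^ 2) with hv
  have hv1 : (3 : ℤ) ^ v ∣ ((m + 2).choose 2 : ℤ) * c ^ 2 := pow_multiplicity_dvd _ _
  have hv2 : ¬ (3 : ℤ) ^ (v + 1) ∣ ((m + 2).choose 2 : ℤ) * c ^ 2 :=
    hfin.not_pow_dvd_of_multiplicity_lt (Nat.lt_succ_self _)
  apply hv2
  have h2 : 2 ∈ Finset.range (m + 2 + 1) := Finset.mem_range.2 (by omega)
  rw [← Finset.add_sum_erase _ _ h2, lam2, mul_one] at h0
  have h3 : (3 : ℤ) ^ (v + 1) ∣ ∑ k ∈ (Finset.range (m + 2 + 1)).erase 2,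
      ((m + 2).choose k : ℤ) * c ^ k * L ((T c ^ k) (1, 0, 0)) := by
    refine Finset.dvd_sum fun k hk => ?_
    have hk2 : k ≠ 2 := (Finset.mem_erase.1 hk).1
    rcases Nat.lt_or_ge k 4 with h | h
    · have h4 : k = 0 ∨ k = 1 ∨ k = 3 := by omega
      rcases h4 with h4 | h4 | h4
      · rw [h4, lam0, mul_zero]
        exact dvd_zero _
      · rw [h4, lam1, mul_zero]
        exact dvd_zero _
      · rw [h4, lam3, mul_zero]
        exact dvd_zero _
    · obtain ⟨l, rfl⟩ : ∃ l, k = l + 2 := ⟨k - 2, by omega⟩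
      exact Dvd.dvd.mul_right (key c c' hc' m l v (by omega) hv1) _
  have h4 : ((m + 2).choose 2 : ℤ) * c ^ 2 = -(∑ k ∈ (Finset.range (m + 2 + 1)).erase 2,
      ((m + 2).choose k : ℤ) * c ^ k * L ((T c ^ k) (1, 0, 0))) := by linarith
  rw [h4]
  exact (dvd_neg).2 h3

end Pool.Agent.Helper72.TQ
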